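import Pool.Agent.helper24.ISL.Spec

set_option autoImplicit false

namespace Pool.Agent.ISL

open Matrix Filter Topology

/-- the limit of the difference quotients -/
lemma NI_lim (n : ℕ) (hn : 2 ≤ n) (f : ℝ → ℝ) (f' : ℝ) (hf : HasDerivAt f f' 0) (hf0 : f 0 = 0) :
    Tendsto (fun i : ℕ => ((((1 / 2 : ℚ) : ℝ)) ^ (n * i))⁻¹ * f ((((1 / 2 : ℚ) : ℝ)) ^ (n * i)))
      atTop (𝓝 f') := by
  have h1 := hasDerivAt_iff_tendsto_slope_zero.1 hf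
  have h2 : Tendsto (fun i : ℕ => (((1 / 2 : ℚ) : ℝ)) ^ (n * i)) atTop (𝓝[≠] 0) := by
    rw [tendsto_nhdsWithin_iff]
    constructor
    · have h3 : Tendsto (fun i : ℕ => n * i) atTop atTop :=
        tendsto_atTop_mono (fun i => Nat.le_mul_of_pos_left i (by omega)) tendsto_id
      exact (tendsto_pow_atTop_nhds_zero_of_lt_one (by norm_num) (by norm_num)).comp h3
    · refine Eventually.of_forall fun i => ?_
      have : (((1 / 2 : ℚ) : ℝ)) ^ (n * i) ≠ 0 := pow_ne_zero _ (by norm_num)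
      exact this
  have h4 := h1.comp h2
  refine h4.congr fun i => ?_
  simp only [Function.comp_apply, zero_add, hf0, sub_zero, smul_eq_mul]

lemma NI_mulVec {n : ℕ} (M : Mat n ℚ) (v : Fin n → ℚ) : cm ℝ M *ᵥ cv ℝ v = cv ℝ (M *ᵥ v) := by
  funext i
  simp only [Matrix.mulVec, dotProduct, cv, cm_apply]
  push_cast
  rfl

lemma NI_dot {n : ℕ} (φ v : Fin n → ℚ) : cv ℝ φ ⬝ᵥ cv ℝ v = ((φ ⬝ᵥ v : ℚ) : ℝ) := by
  simp only [dotProduct, cv]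
  push_cast
  rfl

theorem NI (h1 : EE_stmt) (h2 : DD_stmt) (h3 : LM_stmt) (h4 : KEY_stmt) (h5 : NG_stmt)
    (h6 : CIR_stmt) : NI_stmt := by
  intro n hn H hM p hp
  obtain ⟨K, hKs, hKcl, hKN⟩ := h5 n ℝ H {p} false
  obtain ⟨c, θ, hD⟩ := h2 n hn H hM (1 / 2) (by norm_num)
  obtain ⟨e, heH, hexp⟩ := h1 n hn H hM
  obtain ⟨A, κ, hA0, hκ, hA3, hg⟩ := h6 n hn H hM p hp
  have hθc : θ ⬝ᵥ c = 1 := hD.1
  have hc0 : c ≠ 0 := by
    rintro rfl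
    rw [dotProduct_zero] at hθc
    exact zero_ne_one hθc
  have hθ0 : θ ≠ 0 := by
    rintro rfl
    rw [zero_dotProduct] at hθc
    exact zero_ne_one hθc
  obtain ⟨i₀, hi₀⟩ : ∃ i₀, A i₀ ≠ 0 := by
    by_contra hh
    push Not at hh
    exact hA0 (by
      funext i
      exact hh i)
  obtain ⟨J, hJ⟩ := hexp (A i₀) c hi₀ hc0
  have hhH : e ^ J ∈ H := H.pow_mem heH J
  have hJ' := hJ J le_rfl
  generalize e ^ J = h at hhH hJ'
  have hne : A *ᵥ ((h : Mat n ℚ) *ᵥ c) ≠ 0 := fun h0 => hJ' (congrFun h0 i₀)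
  have hh1 : (h : Mat n ℚ) * ((h⁻¹ : SL n ℚ) : Mat n ℚ) = 1 := by
    rw [← Matrix.SpecialLinearGroup.coe_mul, mul_inv_cancel, Matrix.SpecialLinearGroup.coe_one]
  have hh2 : ((h⁻¹ : SL n ℚ) : Mat n ℚ) * (h : Mat n ℚ) = 1 := by
    rw [← Matrix.SpecialLinearGroup.coe_mul, inv_mul_cancel, Matrix.SpecialLinearGroup.coe_one]
  obtain ⟨B, hB⟩ : ∃ B : Mat n ℚ, B = ((h⁻¹ : SL n ℚ) : Mat n ℚ) * A * (h : Mat n ℚ) := ⟨_, rfl⟩
  have hB2 : B * B = ((h⁻¹ : SL n ℚ) : Mat n ℚ) * (A * A) * (h : Mat n ℚ) := by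
    rw [hB]
    calc ((h⁻¹ : SL n ℚ) : Mat n ℚ) * A * (h : Mat n ℚ) *
          (((h⁻¹ : SL n ℚ) : Mat n ℚ) * A * (h : Mat n ℚ))
        = ((h⁻¹ : SL n ℚ) : Mat n ℚ) * A * ((h : Mat n ℚ) * ((h⁻¹ : SL n ℚ) : Mat n ℚ)) * A *
          (h : Mat n ℚ) := by simp only [Matrix.mul_assoc]
      _ = _ := by rw [hh1, Matrix.mul_one]; simp only [Matrix.mul_assoc]
  have hB3 : B * B * B = -κ • B := by
    rw [hB2, hB]
    calc ((h⁻¹ : SL n ℚ) : Mat n ℚ) * (A * A) * (h : Mat n ℚ) *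
          (((h⁻¹ : SL n ℚ) : Mat n ℚ) * A * (h : Mat n ℚ))
        = ((h⁻¹ : SL n ℚ) : Mat n ℚ) * (A * A) *
          ((h : Mat n ℚ) * ((h⁻¹ : SL n ℚ) : Mat n ℚ)) * A * (h : Mat n ℚ) := by
            simp only [Matrix.mul_assoc]
      _ = ((h⁻¹ : SL n ℚ) : Mat n ℚ) * (A * A * A) * (h : Mat n ℚ) := by
            rw [hh1, Matrix.mul_one]; simp only [Matrix.mul_assoc]
      _ = _ := by rw [hA3, Matrix.mul_smul, Matrix.smul_mul]
  have hBc : B *ᵥ c ≠ 0 := by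
    intro h0
    apply hne
    have h7 : (h : Mat n ℚ) *ᵥ (B *ᵥ c) = A *ᵥ ((h : Mat n ℚ) *ᵥ c) := by
      rw [Matrix.mulVec_mulVec, Matrix.mulVec_mulVec, hB, ← Matrix.mul_assoc, ← Matrix.mul_assoc,
        hh1, Matrix.one_mul]
    rw [← h7, h0, Matrix.mulVec_zero]
  -- the conjugated elements
  have hconj : ∀ r : ℝ, ∃ k ∈ K, (k : Mat n ℝ) = 1 + (Real.sin r / √(κ : ℝ)) • cm ℝ B +
      ((1 - Real.cos r) / (κ : ℝ)) • cm ℝ (B * B) := by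
    intro r
    obtain ⟨g, hgN, hgm⟩ := hg r
    have hgK : g ∈ K := by
      have : g ∈ (K : Set (SL n ℝ)) := by rw [hKs]; exact hgN
      exact this
    refine ⟨cs ℝ h⁻¹ * g * (cs ℝ h⁻¹)⁻¹, hKN _ (H.inv_mem hhH) g hgK, ?_⟩
    have h8 : (cs ℝ h⁻¹ : SL n ℝ)⁻¹ = cs ℝ h := by rw [map_inv, inv_inv]
    rw [h8, Matrix.SpecialLinearGroup.coe_mul, Matrix.SpecialLinearGroup.coe_mul, cs_coe, cs_coe,
      hgm, Matrix.mul_add, Matrix.mul_add, Matrix.add_mul, Matrix.add_mul, Matrix.mul_one,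
      ← map_mul, hh2, map_one, Matrix.mul_smul, Matrix.mul_smul, Matrix.smul_mul, Matrix.smul_mul,
      ← map_mul, ← map_mul, ← map_mul, ← map_mul, hB2, hB]
  obtain ⟨v, hv⟩ : ∃ v : Fin n → ℚ, v = B *ᵥ c - (θ ⬝ᵥ (B *ᵥ c)) • c := ⟨_, rfl⟩
  have hv0 : v ≠ 0 := by
    intro h0
    have h9 : B *ᵥ c = (θ ⬝ᵥ (B *ᵥ c)) • c := by
      rw [h0] at hv
      exact sub_eq_zero.1 hv.symm
    obtain ⟨l, hl⟩ : ∃ l : ℚ, l = θ ⬝ᵥ (B *ᵥ c) := ⟨_, rfl⟩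
    rw [← hl] at h9
    have h10 : (B * B * B) *ᵥ c = (l * l * l) • c := by
      rw [← Matrix.mulVec_mulVec, ← Matrix.mulVec_mulVec, h9, Matrix.mulVec_smul,
        Matrix.mulVec_smul, h9, Matrix.mulVec_smul, h9, smul_smul, smul_smul, mul_assoc]
    have h11 : (B * B * B) *ᵥ c = (-κ * l) • c := by
      rw [hB3, Matrix.smul_mulVec, h9, smul_smul]
    rw [h10] at h11
    have h12 : (l * l * l) = -κ * l := by
      by_contra hcon
      have h13 : (l * l * l - -κ * l) • c = 0 := by rw [sub_smul, h11, sub_self]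
      rcases smul_eq_zero.1 h13 with h14 | h14
      · exact hcon (sub_eq_zero.1 h14)
      · exact hc0 h14
    have h15 : l = 0 := by
      by_contra hl0
      have h16 : l * (l * l + κ) = 0 := by linarith
      rcases mul_eq_zero.1 h16 with h17 | h17
      · exact hl0 h17
      · nlinarith [mul_self_nonneg l]
    rw [h15, zero_smul] at h9
    exact hBc h9
  have hθv : θ ⬝ᵥ v = 0 := by
    rw [hv, dotProduct_sub, dotProduct_smul, hθc, smul_eq_mul, mul_one, sub_self]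
  have hκr : (0 : ℝ) < (κ : ℝ) := by exact_mod_cast hκ
  have hsq : √(κ : ℝ) ≠ 0 := (Real.sqrt_pos.2 hκr).ne'
  have hK : K = ⊤ := by
    refine h4 n ℝ H K hn hM hKcl hKN ⟨1 / 2, by norm_num, by norm_num⟩ v θ hv0 hθ0 hθv
      ⟨1, one_pos, fun s _ => ?_⟩
    -- the limit
    choose k hkK hkm using fun i : ℕ =>
      hconj (√(κ : ℝ) * s * (((1 / 2 : ℚ) : ℝ)) ^ (n * i))
    have hd1 : HasDerivAt (fun t : ℝ => Real.sin (√(κ : ℝ) * s * t) / √(κ : ℝ)) s 0 := by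
      have e1 : HasDerivAt (fun t : ℝ => √(κ : ℝ) * s * t) (√(κ : ℝ) * s) 0 := by
        simpa using (hasDerivAt_id (0 : ℝ)).const_mul (√(κ : ℝ) * s)
      have e2 := (e1.sin).div_const (√(κ : ℝ))
      have e3 : Real.cos (√(κ : ℝ) * s * 0) * (√(κ : ℝ) * s) / √(κ : ℝ) = s := by
        rw [mul_zero, Real.cos_zero, one_mul, mul_comm, mul_div_assoc, div_self hsq, mul_one]
      rwa [e3] at e2
    have hd2 : HasDerivAt (fun t : ℝ => (1 - Real.cos (√(κ : ℝ) * s * t)) / (κ : ℝ)) 0 0 := by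
      have e1 : HasDerivAt (fun t : ℝ => √(κ : ℝ) * s * t) (√(κ : ℝ) * s) 0 := by
        simpa using (hasDerivAt_id (0 : ℝ)).const_mul (√(κ : ℝ) * s)
      have e2 := ((e1.cos).const_sub 1).div_const (κ : ℝ)
      have e3 : -(-Real.sin (√(κ : ℝ) * s * 0) * (√(κ : ℝ) * s)) / (κ : ℝ) = 0 := by
        rw [mul_zero, Real.sin_zero]
        ring
      rwa [e3] at e2
    have hl1 := NI_lim n hn _ _ hd1 (by simp)
    have hl2 := NI_lim n hn _ _ hd2 (by simp)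
    have hZ : Tendsto (fun i : ℕ =>
        ((((1 / 2 : ℚ) : ℝ) ^ (n * i))⁻¹ * (Real.sin (√(κ : ℝ) * s * ((1 / 2 : ℚ) : ℝ) ^ (n * i)) /
          √(κ : ℝ))) • cm ℝ B +
        ((((1 / 2 : ℚ) : ℝ) ^ (n * i))⁻¹ * ((1 - Real.cos (√(κ : ℝ) * s *
          ((1 / 2 : ℚ) : ℝ) ^ (n * i))) / (κ : ℝ))) • cm ℝ (B * B)) atTop
        (𝓝 (s • cm ℝ B)) := by
      have h20 := (hl1.smul_const (cm ℝ B)).add (hl2.smul_const (cm ℝ (B * B)))
      rw [zero_smul, add_zero] at h20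
      exact h20
    have hev : ∀ᶠ i in atTop, (k i : Mat n ℝ) = 1 + (((1 / 2 : ℚ) : ℝ) ^ (n * i)) •
        (((((1 / 2 : ℚ) : ℝ) ^ (n * i))⁻¹ * (Real.sin (√(κ : ℝ) * s *
          ((1 / 2 : ℚ) : ℝ) ^ (n * i)) / √(κ : ℝ))) • cm ℝ B +
        ((((1 / 2 : ℚ) : ℝ) ^ (n * i))⁻¹ * ((1 - Real.cos (√(κ : ℝ) * s *
          ((1 / 2 : ℚ) : ℝ) ^ (n * i))) / (κ : ℝ))) • cm ℝ (B * B)) := by
      refine Eventually.of_forall fun i => ?_
      have ht : (((1 / 2 : ℚ) : ℝ)) ^ (n * i) ≠ 0 := pow_ne_zero _ (by norm_num)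
      rw [hkm i, smul_add, smul_smul, smul_smul, ← mul_assoc, ← mul_assoc, mul_inv_cancel₀ ht,
        one_mul, one_mul, add_assoc]
    have h21 := (h3 n ℝ H K hn hKcl hKN (1 / 2) c θ (by norm_num) (by norm_num) hD
      (s • cm ℝ B) k _ hkK hev hZ).1
    have h22 : (1 : Mat n ℝ) + rk ((s • cm ℝ B) *ᵥ cv ℝ c -
        (cv ℝ θ ⬝ᵥ ((s • cm ℝ B) *ᵥ cv ℝ c)) • cv ℝ c) (cv ℝ θ) =
        1 + s • rk (cv ℝ v) (cv ℝ θ) := by
      have h23 : (s • cm ℝ B) *ᵥ cv ℝ c - (cv ℝ θ ⬝ᵥ ((s • cm ℝ B) *ᵥ cv ℝ c)) • cv ℝ c =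
          s • cv ℝ v := by
        rw [Matrix.smul_mulVec, NI_mulVec, dotProduct_smul, NI_dot, hv]
        funext i
        simp only [cv, Pi.sub_apply, Pi.smul_apply, smul_eq_mul]
        push_cast
        ring
      rw [h23]
      congr 1
      unfold rk
      rw [Matrix.smul_vecMulVec]
    rw [h22] at h21
    exact h21
  rw [← hKs, hK]
  rfl

end Pool.Agent.ISL
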